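import Mathlib
import Pool.Agent.H579R3.Epi2

set_option autoImplicit false

open Set

namespace Pool.Agent.Helper568.EE

open Pool.Agent.H579R3.Epi (K IsAuto)

/-- the possible elements of the coding structures: nodes of the tree, numbered points of the fibre
`(p, κ)`, and the extra point of the fibre `(p, κ)` -/
inductive E : Type
  | nd (p : List ℤ) : E
  | el (p : List ℤ) (κ : K) (n : ℕ) : E
  | xt (p : List ℤ) (κ : K) : E

/-- a code for the elements of `E` -/
def E.code : E → List ℤ × Option (K × Option ℕ)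
  | .nd p => (p, none)
  | .el p κ n => (p, some (κ, some n))
  | .xt p κ => (p, some (κ, none))

lemma E.code_injective : Function.Injective E.code := by
  intro a b h
  cases a <;> cases b <;> simp_all [E.code]

instance : Countable E := E.code_injective.countable

/-- the relation symbols -/
inductive Sy : Type
  | ch : Sy
  | rt : Sy
  | lb (κ : K) : Sy
  | pn (n : ℕ) : Sy

/-- a code for the symbols -/
def Sy.code : Sy → Option (Option (K ⊕ ℕ))
  | .ch => none
  | .rt => some none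
  | .lb κ => some (some (Sum.inl κ))
  | .pn n => some (some (Sum.inr n))

lemma Sy.code_injective : Function.Injective Sy.code := by
  intro a b h
  cases a <;> cases b <;> simp_all [Sy.code]

instance : Countable Sy := Sy.code_injective.countable

lemma pn_injective : Function.Injective Sy.pn := fun a b h => by simpa using h

instance : Infinite Sy := Infinite.of_injective Sy.pn pn_injective

/-- the numbering of the symbols -/
noncomputable def sy : ℕ ≃ Sy :=
  haveI := Classical.choice (nonempty_denumerable Sy)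
  (Denumerable.eqv Sy).symm

open E Sy

/-- the relations -/
def rel : Sy → E → E → Prop
  | ch, a, b => ∃ p k, a = nd p ∧ b = nd (k :: p)
  | rt, a, b => a = nd [] ∧ b = nd []
  | lb κ, a, b => ∃ p, a = nd p ∧ (b = xt p κ ∨ ∃ n, b = el p κ n)
  | pn n, a, b => a = b ∧ ∃ p κ, b = el p κ n

/-- the universe of the coding structure of a labelled tree -/
def U (Λ : List ℤ → Set K) : E → Prop
  | nd _ => True
  | el _ _ _ => True
  | xt p κ => κ ∈ Λ p

/-- `π` enumerates the universe without repetitions -/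
def Enum {M : Type} (Λ : List ℤ → Set K) (π : M → E) : Prop :=
  Function.Injective π ∧ ∀ e, (∃ n, π n = e) ↔ U Λ e

/-- the map induced by a map of the tree -/
def mapE (g : List ℤ → List ℤ) : E → E
  | nd p => nd (g p)
  | el p κ n => el (g p) κ n
  | xt p κ => xt (g p) κ

lemma mapE_inj {g : List ℤ → List ℤ} (hg : Function.Injective g) :
    Function.Injective (mapE g) := by
  intro a b h
  cases a <;> cases b <;> simp [mapE] at h ⊢
  · exact hg h
  · exact ⟨hg h.1, h.2⟩
  · exact ⟨hg h.1, h.2⟩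

lemma rel_mapE {g : List ℤ → List ℤ} (hg : IsAuto g) (s : Sy) (a b : E) :
    rel s (mapE g a) (mapE g b) ↔ rel s a b := by
  have hnil : ∀ p, g p = [] ↔ p = [] := by
    intro p
    constructor
    · intro h
      rw [← hg.nil] at h
      exact hg.bij.1 h
    · rintro rfl
      exact hg.nil
  cases s with
  | ch =>
    cases a with
    | nd p =>
      cases b with
      | nd q =>
        simp only [rel, mapE, nd.injEq]
        constructor
        · rintro ⟨_, k, rfl, h⟩
          rcases q with _ | ⟨k', q⟩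
          · rw [hg.nil] at h
            exact absurd h (by simp)
          · obtain ⟨k'', e⟩ := hg.cons k' q
            rw [e] at h
            have := hg.bij.1 (List.cons.inj h).2
            exact ⟨p, k', rfl, by rw [this]⟩
        · rintro ⟨_, k, rfl, rfl⟩
          obtain ⟨k', e⟩ := hg.cons k p
          exact ⟨g p, k', rfl, e⟩
      | el q κ n => simp [rel, mapE]
      | xt q κ => simp [rel, mapE]
    | el q κ n => simp [rel, mapE]
    | xt q κ => simp [rel, mapE]
  | rt =>
    cases a <;> cases b <;> simp [rel, mapE, hnil]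
  | lb κ =>
    cases a <;> cases b <;> simp [rel, mapE, hg.bij.1.eq_iff]
  | pn n =>
    cases a <;> cases b <;> simp [rel, mapE, hg.bij.1.eq_iff]

/-- a map of trees that need not be onto -/
def TLe2 (Λ Λ' : List ℤ → Set K) : Prop :=
  ∃ g : List ℤ → List ℤ, g [] = [] ∧ (∀ k p, ∃ k', g (k :: p) = k' :: g p) ∧ ∀ p, Λ p ⊆ Λ' (g p)

section

variable {M N : Type} {Λ Λ' : List ℤ → Set K} {π : M → E} {π' : N → E}

lemma nd_of (hπ : Enum Λ π) {f : M → N} (h : ∀ s a b, rel s (π a) (π b) ↔ rel s (π' (f a)) (π' (f b)))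
    {n : M} {p : List ℤ} (hn : π n = nd p) : ∃ q, π' (f n) = nd q := by
  obtain ⟨m, hm⟩ := (hπ.2 (nd (0 :: p))).2 trivial
  have h1 : rel ch (π n) (π m) := ⟨p, 0, hn, hm⟩
  rw [h] at h1
  obtain ⟨q, _, h2, _⟩ := h1
  exact ⟨q, h2⟩

/-- the tree map of an embedding -/
lemma exists_g (hπ : Enum Λ π) {f : M → N}
    (h : ∀ s a b, rel s (π a) (π b) ↔ rel s (π' (f a)) (π' (f b))) :
    ∃ g : List ℤ → List ℤ, g [] = [] ∧ (∀ k p, ∃ k', g (k :: p) = k' :: g p) ∧
      (∀ n p, π n = nd p → π' (f n) = nd (g p)) ∧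
      (∀ n p κ m, π n = el p κ m → π' (f n) = el (g p) κ m) ∧
      (∀ n p κ, π n = xt p κ → π' (f n) = xt (g p) κ) := by
  have h1 : ∀ p, ∃ p', ∀ n, π n = nd p → π' (f n) = nd p' := by
    intro p
    obtain ⟨n, hn⟩ := (hπ.2 (nd p)).2 trivial
    obtain ⟨p', hp'⟩ := nd_of hπ h hn
    refine ⟨p', fun m hm => ?_⟩
    have : m = n := hπ.1 (by rw [hn, hm])
    rw [this, hp']
  choose g hg using h1
  have hlb : ∀ n p κ, π n = xt p κ ∨ (∃ m, π n = el p κ m) →
      π' (f n) = xt (g p) κ ∨ ∃ m, π' (f n) = el (g p) κ m := by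
    intro n p κ hn
    obtain ⟨r, hr⟩ := (hπ.2 (nd p)).2 trivial
    have h1 : rel (lb κ) (π r) (π n) := ⟨p, hr, hn⟩
    rw [h] at h1
    obtain ⟨q, h2, h3⟩ := h1
    rw [hg p r hr] at h2
    obtain rfl : g p = q := by simpa using h2
    exact h3
  refine ⟨g, ?_, ?_, fun n p hn => hg p n hn, ?_, ?_⟩
  · obtain ⟨n, hn⟩ := (hπ.2 (nd [])).2 trivial
    have h1 : rel rt (π n) (π n) := ⟨hn, hn⟩
    rw [h, hg [] n hn] at h1
    simpa using h1.1
  · intro k p
    obtain ⟨n, hn⟩ := (hπ.2 (nd p)).2 trivial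
    obtain ⟨m, hm⟩ := (hπ.2 (nd (k :: p))).2 trivial
    have h3 : rel ch (π n) (π m) := ⟨p, k, hn, hm⟩
    rw [h, hg p n hn, hg _ m hm] at h3
    obtain ⟨q, k', h4, h5⟩ := h3
    have h4' : g p = q := by simpa using h4
    have h5' : g (k :: p) = k' :: q := by simpa using h5
    exact ⟨k', by rw [h5', h4']⟩
  · intro n p κ m hn
    have h1 : rel (pn m) (π n) (π n) := ⟨rfl, p, κ, hn⟩
    rw [h] at h1
    obtain ⟨_, p', κ', h2⟩ := h1
    rcases hlb n p κ (Or.inr ⟨m, hn⟩) with h3 | ⟨m', h3⟩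
    · rw [h3] at h2
      exact absurd h2 (by simp)
    · rw [h3] at h2
      have : m' = m := by simp only [el.injEq] at h2; exact h2.2.2
      rw [h3, this]
  · intro n p κ hn
    rcases hlb n p κ (Or.inl hn) with h3 | ⟨m', h3⟩
    · exact h3
    · have h1 : rel (pn m') (π' (f n)) (π' (f n)) := ⟨rfl, _, _, h3⟩
      rw [← h] at h1
      obtain ⟨_, p', κ', h2⟩ := h1
      rw [hn] at h2
      exact absurd h2 (by simp)

/-- Embeddings of the coding structures are maps of labelled trees. -/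
theorem tle_of_emb (hπ : Enum Λ π) (hπ' : Enum Λ' π') {f : M → N}
    (h : ∀ s a b, rel s (π a) (π b) ↔ rel s (π' (f a)) (π' (f b))) : TLe2 Λ Λ' := by
  obtain ⟨g, h1, h2, h3, h4, h5⟩ := exists_g hπ h
  refine ⟨g, h1, h2, fun p κ hκ => ?_⟩
  obtain ⟨n, hn⟩ := (hπ.2 (xt p κ)).2 hκ
  exact (hπ'.2 (xt (g p) κ)).1 ⟨f n, h5 n p κ hn⟩

end

section

variable {M : Type} {Λ Λ' : List ℤ → Set K} {π π' : M → E}

/-- Equal coding structures come from isomorphic labelled trees. -/
theorem lemmaE (hπ : Enum Λ π) (hπ' : Enum Λ' π')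
    (h : ∀ s a b, rel s (π a) (π b) ↔ rel s (π' a) (π' b)) :
    ∃ g, IsAuto g ∧ (∀ n, π' n = mapE g (π n)) ∧ ∀ p, Λ p = Λ' (g p) := by
  obtain ⟨g, h1, h2, h3, h4, h5⟩ := exists_g (f := id) hπ h
  obtain ⟨g', h1', h2', h3', h4', h5'⟩ := exists_g (f := id) hπ' (fun s a b => (h s a b).symm)
  simp only [id] at h3 h4 h5 h3' h4' h5'
  have i1 : ∀ p, g' (g p) = p := by
    intro p
    obtain ⟨n, hn⟩ := (hπ.2 (nd p)).2 trivial
    have := h3' n (g p) (h3 n p hn)
    rw [hn] at this
    simpa using this.symm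
  have i2 : ∀ p, g (g' p) = p := by
    intro p
    obtain ⟨n, hn⟩ := (hπ'.2 (nd p)).2 trivial
    have := h3 n (g' p) (h3' n p hn)
    rw [hn] at this
    simpa using this.symm
  refine ⟨g, ⟨⟨?_, fun p => ⟨g' p, i2 p⟩⟩, h1, h2⟩, ?_, ?_⟩
  · intro p q hpq
    rw [← i1 p, hpq, i1]
  · intro n
    cases hn : π n with
    | nd p => exact h3 n p hn
    | el p κ m => exact h4 n p κ m hn
    | xt p κ => exact h5 n p κ hn
  · intro p
    ext κ
    constructor
    · intro hκ
      obtain ⟨n, hn⟩ := (hπ.2 (xt p κ)).2 hκ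
      exact (hπ'.2 (xt (g p) κ)).1 ⟨n, h5 n p κ hn⟩
    · intro hκ
      obtain ⟨n, hn⟩ := (hπ'.2 (xt (g p) κ)).2 hκ
      have := h5' n _ κ hn
      rw [i1] at this
      exact (hπ.2 (xt p κ)).1 ⟨n, this⟩

end

end Pool.Agent.Helper568.EE
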