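import Mathlib
import Pool.Agent.Helper568_elem.EE1

set_option autoImplicit false

open Set

namespace Pool.Agent.Helper568.EE

open Pool.Agent.H579R3.Epi (K IsAuto)
open E Sy

/-- the language: the `i`-th relation symbol is binary for every `i` -/
abbrev Lg : FirstOrder.Language :=
  FirstOrder.Language.mk (fun _ => PEmpty.{1}) (fun n => {i : ℕ // (fun _ : ℕ => 2) i = n})

open FirstOrder FirstOrder.Language

section perm

variable {M : Type} [Lg.Structure M]

lemma term_perm {α : Type} (t : Lg.Term α) (σ : M → M) (v : α → M) :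
    t.realize (σ ∘ v) = σ (t.realize v) := by
  cases t with
  | var a => rfl
  | func f ts => exact PEmpty.elim f

/-- every formula is preserved by all permutations which preserve finitely many of the relations -/
theorem perm_realize {α : Type} {n : ℕ} (φ : Lg.BoundedFormula α n) :
    ∃ N₀ : ℕ, ∀ σ : _root_.Equiv.Perm M,
      (∀ (k : ℕ) (r : Lg.Relations k), r.1 < N₀ → ∀ xs : Fin k → M,
        (Structure.RelMap r (σ ∘ xs) ↔ Structure.RelMap r xs)) →
      ∀ (v : α → M) (xs : Fin n → M), φ.Realize (σ ∘ v) (σ ∘ xs) ↔ φ.Realize v xs := by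
  induction φ with
  | falsum => exact ⟨0, fun σ _ v xs => Iff.rfl⟩
  | equal t₁ t₂ =>
    refine ⟨0, fun σ _ v xs => ?_⟩
    simp only [BoundedFormula.Realize, ← Sum.comp_elim, term_perm]
    exact σ.injective.eq_iff
  | rel R ts =>
    refine ⟨R.1 + 1, fun σ h v xs => ?_⟩
    simp only [BoundedFormula.Realize, ← Sum.comp_elim, term_perm]
    exact h _ R (Nat.lt_succ_self _) _
  | imp φ ψ ih1 ih2 =>
    obtain ⟨N1, h1⟩ := ih1
    obtain ⟨N2, h2⟩ := ih2
    refine ⟨max N1 N2, fun σ h v xs => ?_⟩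
    have e1 := h1 σ (fun k r hr => h k r (lt_of_lt_of_le hr (le_max_left _ _))) v xs
    have e2 := h2 σ (fun k r hr => h k r (lt_of_lt_of_le hr (le_max_right _ _))) v xs
    simp only [BoundedFormula.Realize, e1, e2]
  | all φ ih =>
    obtain ⟨N1, h1⟩ := ih
    refine ⟨N1, fun σ h v xs => ?_⟩
    simp only [BoundedFormula.Realize]
    constructor
    · intro H a
      rw [← h1 σ h, Fin.comp_snoc]
      exact H _
    · intro H a
      have := H (σ.symm a)
      rw [← h1 σ h, Fin.comp_snoc, σ.apply_symm_apply] at this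
      exact this

end perm

section main

variable {M N : Type} [Lg.Structure M] [Lg.Structure N] {Λ Λ' : List ℤ → Set K}
  {π : M → E} {π' : N → E}

/-- `M` is a coding structure -/
def Coded (M : Type) [Lg.Structure M] (π : M → E) : Prop :=
  ∀ (k : ℕ) (r : Lg.Relations k) (xs : Fin k → M),
    Structure.RelMap r xs ↔ rel (sy r.1) (π (xs (Fin.cast r.2 0))) (π (xs (Fin.cast r.2 1)))

/-- Isomorphisms of the trees which increase the labels give elementary embeddings. -/
theorem exists_elem (hM : Coded M π) (hN : Coded N π') (hπ : Enum Λ π) (hπ' : Enum Λ' π')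
    {g : List ℤ → List ℤ} (hg : IsAuto g) (hΛ : ∀ p, Λ p ⊆ Λ' (g p)) :
    Nonempty (M ↪ₑ[Lg] N) := by
  classical
  -- the map
  have h1 : ∀ a : M, ∃ b : N, π' b = mapE g (π a) := by
    intro a
    refine (hπ'.2 _).2 ?_
    have h2 := (hπ.2 (π a)).1 ⟨a, rfl⟩
    cases hn : π a with
    | nd p => trivial
    | el p κ m => trivial
    | xt p κ =>
      rw [hn] at h2
      exact hΛ p h2
  choose f hf using h1
  have hfi : Function.Injective f := by
    intro a b hab
    have h2 := congrArg π' hab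
    rw [hf, hf] at h2
    exact hπ.1 (mapE_inj hg.bij.1 h2)
  let F : M ↪[Lg] N :=
    { toFun := f
      inj' := hfi
      map_fun' := fun {n} fn _ => PEmpty.elim fn
      map_rel' := by
        intro n r x
        rw [hM n r x, hN n r (f ∘ x)]
        simp only [Function.comp, hf]
        exact rel_mapE hg _ _ _ }
  refine ⟨F.toElementaryEmbedding ?_⟩
  intro n φ x a ha
  by_cases har : ∃ b, f b = a
  · obtain ⟨b, rfl⟩ := har
    exact ⟨b, ha⟩
  -- `a` is an extra point
  obtain ⟨p, κ, hpκ⟩ : ∃ p κ, π' a = xt (g p) κ := by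
    cases hn : π' a with
    | nd q =>
      exfalso
      apply har
      obtain ⟨p, rfl⟩ := hg.bij.2 q
      obtain ⟨b, hb⟩ := (hπ.2 (nd p)).2 trivial
      refine ⟨b, hπ'.1 ?_⟩
      rw [hf, hb, hn]
      rfl
    | el q κ m =>
      exfalso
      apply har
      obtain ⟨p, rfl⟩ := hg.bij.2 q
      obtain ⟨b, hb⟩ := (hπ.2 (el p κ m)).2 trivial
      refine ⟨b, hπ'.1 ?_⟩
      rw [hf, hb, hn]
      rfl
    | xt q κ =>
      obtain ⟨p, rfl⟩ := hg.bij.2 q
      exact ⟨p, κ, rfl⟩
  obtain ⟨N₀, hN₀⟩ := perm_realize (M := N) φ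
  -- the number of the substitute
  obtain ⟨m, hm1, hm2⟩ : ∃ m : ℕ, (∀ i, i < N₀ → sy i ≠ pn m) ∧ ∀ j, π (x j) ≠ el p κ m := by
    have hfin1 : {m : ℕ | ∃ i, i < N₀ ∧ sy i = pn m}.Finite := by
      have : {m : ℕ | ∃ i, i < N₀ ∧ sy i = pn m} ⊆ pn ⁻¹' (sy '' (Set.Iio N₀)) := by
        rintro m ⟨i, hi, h⟩
        exact ⟨i, hi, h⟩
      exact (((Set.finite_Iio N₀).image _).preimage pn_injective.injOn).subset this
    have hfin2 : {m : ℕ | ∃ j, π (x j) = el p κ m}.Finite := by
      have : {m : ℕ | ∃ j, π (x j) = el p κ m} ⊆ (el p κ) ⁻¹' (Set.range (π ∘ x)) := by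
        rintro m ⟨j, h⟩
        exact ⟨j, h⟩
      refine ((Set.finite_range _).preimage ?_).subset this
      intro a _ b _ hab
      simpa using hab
    obtain ⟨m, hm⟩ := (hfin1.union hfin2).exists_notMem
    refine ⟨m, fun i hi h => hm (Or.inl ⟨i, hi, h⟩), fun j h => hm (Or.inr ⟨j, h⟩)⟩
  obtain ⟨b, hb⟩ := (hπ.2 (el p κ m)).2 trivial
  have hfb : π' (f b) = el (g p) κ m := by
    rw [hf, hb]
    rfl
  have hab : a ≠ f b := fun h => har ⟨b, h.symm⟩
  let σ : _root_.Equiv.Perm N := _root_.Equiv.swap a (f b)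
  have hσ1 : ∀ c, π' (σ c) = if c = a then el (g p) κ m else if c = f b then xt (g p) κ
      else π' c := by
    intro c
    simp only [σ, _root_.Equiv.swap_apply_def]
    split_ifs with e1 e2
    · exact hfb
    · exact hpκ
    · rfl
  have hpres : ∀ (k : ℕ) (r : Lg.Relations k), r.1 < N₀ → ∀ xs : Fin k → N,
      (Structure.RelMap r (σ ∘ xs) ↔ Structure.RelMap r xs) := by
    intro k r hr xs
    rw [hN k r, hN k r]
    simp only [Function.comp]
    generalize xs (Fin.cast r.2 0) = c
    generalize xs (Fin.cast r.2 1) = d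
    have hr' := hm1 r.1 hr
    generalize sy r.1 = s at hr'
    have hc : (c = a ∧ π' (σ c) = el (g p) κ m ∧ π' c = xt (g p) κ) ∨
        (c = f b ∧ π' (σ c) = xt (g p) κ ∧ π' c = el (g p) κ m) ∨ (σ c = c) := by
      by_cases e1 : c = a
      · left
        refine ⟨e1, ?_, ?_⟩
        · rw [hσ1, if_pos e1]
        · rw [e1, hpκ]
      · by_cases e2 : c = f b
        · right; left
          refine ⟨e2, ?_, ?_⟩
          · rw [hσ1, if_neg e1, if_pos e2]
          · rw [e2, hfb]
        · right; right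
          exact _root_.Equiv.swap_apply_of_ne_of_ne e1 e2
    have hd : (d = a ∧ π' (σ d) = el (g p) κ m ∧ π' d = xt (g p) κ) ∨
        (d = f b ∧ π' (σ d) = xt (g p) κ ∧ π' d = el (g p) κ m) ∨ (σ d = d) := by
      by_cases e1 : d = a
      · left
        refine ⟨e1, ?_, ?_⟩
        · rw [hσ1, if_pos e1]
        · rw [e1, hpκ]
      · by_cases e2 : d = f b
        · right; left
          refine ⟨e2, ?_, ?_⟩
          · rw [hσ1, if_neg e1, if_pos e2]
          · rw [e2, hfb]
        · right; right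
          exact _root_.Equiv.swap_apply_of_ne_of_ne e1 e2
    cases s with
    | ch =>
      have hn : ∀ c, (∃ q, π' (σ c) = nd q) ∨ (∃ q, π' c = nd q) → σ c = c := by
        intro c
        rw [hσ1]
        rintro (⟨q, hq⟩ | ⟨q, hq⟩)
        · by_contra hne
          have : c = a ∨ c = f b := by
            by_contra h'
            rw [not_or] at h'
            exact hne (_root_.Equiv.swap_apply_of_ne_of_ne h'.1 h'.2)
          rcases this with h' | h'
          · rw [if_pos h'] at hq
            exact absurd hq (by simp)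
          · rw [if_neg (by rw [h']; exact hab.symm), if_pos h'] at hq
            exact absurd hq (by simp)
        · apply _root_.Equiv.swap_apply_of_ne_of_ne
          · rintro rfl
            rw [hpκ] at hq
            exact absurd hq (by simp)
          · rintro rfl
            rw [hfb] at hq
            exact absurd hq (by simp)
      constructor
      · rintro ⟨q, k', h2, h3⟩
        rw [hn c (Or.inl ⟨_, h2⟩)] at h2
        rw [hn d (Or.inl ⟨_, h3⟩)] at h3
        exact ⟨q, k', h2, h3⟩
      · rintro ⟨q, k', h2, h3⟩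
        refine ⟨q, k', ?_, ?_⟩
        · rw [hn c (Or.inr ⟨_, h2⟩)]; exact h2
        · rw [hn d (Or.inr ⟨_, h3⟩)]; exact h3
    | rt =>
      rcases hc with ⟨-, h2, h3⟩ | ⟨-, h2, h3⟩ | h2
      · simp [rel, h2, h3]
      · simp [rel, h2, h3]
      · rcases hd with ⟨-, h4, h5⟩ | ⟨-, h4, h5⟩ | h4
        · simp [rel, h4, h5]
        · simp [rel, h4, h5]
        · rw [h2, h4]
    | lb κ' =>
      rcases hc with ⟨-, h2, h3⟩ | ⟨-, h2, h3⟩ | h2
      · simp [rel, h2, h3]
      · simp [rel, h2, h3]
      · rcases hd with ⟨-, h4, h5⟩ | ⟨-, h4, h5⟩ | h4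
        · rw [h2]
          simp only [rel, h4, h5]
          simp
        · rw [h2]
          simp only [rel, h4, h5]
          simp
        · rw [h2, h4]
    | pn m' =>
      have hm' : m ≠ m' := fun h => hr' (by rw [h])
      simp only [rel]
      have e1 : π' (σ c) = π' (σ d) ↔ π' c = π' d := by
        rw [hπ'.1.eq_iff, hπ'.1.eq_iff, σ.injective.eq_iff]
      rw [e1]
      rcases hd with ⟨-, h4, h5⟩ | ⟨-, h4, h5⟩ | h4
      · simp only [h4, h5]
        simp [hm']
      · simp only [h4, h5]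
        simp [hm']
      · rw [h4]
  refine ⟨b, ?_⟩
  have h2 := hN₀ σ hpres default (Fin.snoc (F ∘ x) (F b))
  rw [← h2]
  have h3 : (σ ∘ (default : Empty → N)) = default := Subsingleton.elim _ _
  rw [h3, Fin.comp_snoc]
  have h4 : σ (F b) = a := _root_.Equiv.swap_apply_right _ _
  have h5 : σ ∘ (F ∘ x) = F ∘ x := by
    funext j
    change σ (f (x j)) = f (x j)
    apply _root_.Equiv.swap_apply_of_ne_of_ne
    · exact fun h => har ⟨_, h⟩
    · intro h
      apply hm2 j
      rw [hfi h, hb]
  rw [h4, h5]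
  exact ha

/-- Elementary embeddings of coding structures are maps of labelled trees. -/
theorem tle_of_elem (hM : Coded M π) (hN : Coded N π') (hπ : Enum Λ π) (hπ' : Enum Λ' π')
    (F : M ↪ₑ[Lg] N) : TLe2 Λ Λ' := by
  refine tle_of_emb (f := F) hπ hπ' ?_
  intro s a b
  obtain ⟨i, rfl⟩ := sy.surjective s
  let r : Lg.Relations 2 := (⟨i, rfl⟩ : {i : ℕ // (fun _ : ℕ => 2) i = 2})
  have h1 := hM 2 r ![a, b]
  have h2 := hN 2 r (F ∘ ![a, b])
  have h3 : Structure.RelMap r (F ∘ ![a, b]) ↔ Structure.RelMap r ![a, b] := F.map_rel r _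
  rw [h1, h2] at h3
  exact h3.symm

end main

end Pool.Agent.Helper568.EE
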