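import Mathlib
import Pool.Agent.Helper568_elem.EE2
import Pool.Agent.H579R3.Epi2

set_option autoImplicit false

open Set MeasureTheory

namespace Pool.Agent.Helper568.EE

open Pool.Agent.H579R3.Epi (K IsAuto N Lam br br_lam br_length Enc evalAt last Valid Good ent
  Lam_inr last_congr TLe tree_map rigid measurableSet_lam)
open E Sy

section

variable {α β : N → N}

/-- the relation with witnesses `w`, where `α w` is related to `β w` -/
theorem rel_of_tree2 {x y : N} (hα : Continuous α) (hβ : Continuous β)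
    (htrans : ∀ u v t w w', α w = u → β w = v → α w' = v → β w' = t →
      ∃ w'', α w'' = u ∧ β w'' = t)
    (h : TLe2 (Lam α β x) (Lam α β y)) : x = y ∨ ∃ w, α w = x ∧ β w = y := by
  obtain ⟨g, hgn, hgc, hL⟩ := h
  let q : ℕ → List ℤ := fun n => g (br x n)
  have hex : ∀ n, ∃ k, q (n + 1) = k :: q n := fun n => hgc _ _
  choose k hk using hex
  have hl : ∀ n, (q n).length = n := by
    intro n
    induction n with
    | zero =>
      change (g []).length = 0
      rw [hgn]
      rfl
    | succ n ih => rw [hk, List.length_cons, ih]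
  have hmem : ∀ n, Valid α β y (q (n + 1)) ∧ x n = (ent (k n)).1 := by
    intro n
    have h1 := hL _ (br_lam (α := α) (β := β) x n)
    change _ ∈ Lam α β y (q (n + 1)) at h1
    rw [hk, Lam_inr] at h1
    rw [hk]
    exact h1
  -- the limit chain
  set m := (ent (k 0)).2.length with hm
  let L : List (N × N) := List.ofFn fun j : Fin m =>
    ((fun i => ((ent (k i)).2.getD j (0, 0)).1), (fun i => ((ent (k i)).2.getD j (0, 0)).2))
  have hlen : ∀ n, (ent (k n)).2.length = m := by
    intro n
    obtain ⟨⟨a, l, -, h2, -⟩, -⟩ := hmem n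
    have h3 := Enc.get hk hl h2 n (by omega)
    have h4 := Enc.get hk hl h2 0 (by omega)
    rw [hm, h3, h4]
    simp [evalAt]
  have hev : ∀ n, evalAt x L n = ent (k n) := by
    intro n
    have h1 : (L.map fun q => (q.1 n, q.2 n)) = (ent (k n)).2 := by
      apply List.ext_getElem
      · simp [L, hlen]
      · intro j h2 h3
        simp [L, List.getElem?_eq_getElem h3]
    rw [evalAt, h1, (hmem n).2]
  have hgood : ∀ n, Good α β n x L ∧ ∀ i < n, last x L i = y i := by
    intro n
    rcases n with _ | n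
    · obtain ⟨⟨a, l, h1, h2, -⟩, -⟩ := hmem 0
      refine ⟨?_, fun i hi => by omega⟩
      have h3 := Enc.get hk hl h2 0 (by omega)
      have h4 := hev 0
      rw [h3] at h4
      have h5 : l.length = L.length := by
        have := congrArg (fun e => e.2.length) h4
        simp only [evalAt, List.length_map] at this
        exact this.symm
      exact (h1.mono (Nat.zero_le _)).congr h5 (fun i hi => by omega)
    · obtain ⟨⟨a, l, h1, h2, h2'⟩, -⟩ := hmem n
      have h3 := Enc.get hk hl h2
      rw [hl] at h1 h2'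
      have h5 : l.length = L.length := by
        have h4 := hev 0
        rw [h3 0 (by omega)] at h4
        have := congrArg (fun e => e.2.length) h4
        simp only [evalAt, List.length_map] at this
        exact this.symm
      have h6 : ∀ i < n + 1, evalAt a l i = evalAt x L i := by
        intro i hi
        rw [hev, h3 i hi]
      refine ⟨h1.congr h5 h6, fun i hi => ?_⟩
      rw [← last_congr (h6 i hi)]
      exact h2' i hi
  have hlast : last x L = y := by
    funext i
    exact (hgood (i + 1)).2 i (by omega)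
  -- closedness
  have hclosed : ∀ (a b w : N), (∀ n, ∃ w' : N, ∀ i < n, α w' i = a i ∧ β w' i = b i ∧ w' i = w i) →
      α w = a ∧ β w = b := by
    intro a b w h1
    choose w' hw' using h1
    have hlim : Filter.Tendsto w' Filter.atTop (nhds w) := by
      rw [tendsto_pi_nhds]
      intro i
      apply tendsto_const_nhds.congr'
      filter_upwards [Filter.eventually_gt_atTop i] with n hn
      exact ((hw' n i hn).2.2).symm
    constructor
    · funext i
      have h2 := (tendsto_pi_nhds.1 ((hα.tendsto w).comp hlim)) i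
      have h3 : Filter.Tendsto (fun n => (α ∘ w') n i) Filter.atTop (nhds (a i)) := by
        apply tendsto_const_nhds.congr'
        filter_upwards [Filter.eventually_gt_atTop i] with n hn
        exact ((hw' n i hn).1).symm
      exact tendsto_nhds_unique h2 h3
    · funext i
      have h2 := (tendsto_pi_nhds.1 ((hβ.tendsto w).comp hlim)) i
      have h3 : Filter.Tendsto (fun n => (β ∘ w') n i) Filter.atTop (nhds (b i)) := by
        apply tendsto_const_nhds.congr'
        filter_upwards [Filter.eventually_gt_atTop i] with n hn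
        exact ((hw' n i hn).2.1).symm
      exact tendsto_nhds_unique h2 h3
  have hreach : ∀ l : List (N × N), (∀ n, Good α β n x l) →
      x = last x l ∨ ∃ w, α w = x ∧ β w = last x l := by
    intro l
    induction l with
    | nil => intro _; exact Or.inl rfl
    | cons q l ih =>
      intro h1
      have h2 := ih fun n => (h1 n).2
      obtain ⟨h3, h4⟩ := hclosed (last x l) q.2 q.1 fun n => (h1 n).1
      rcases h2 with h2 | ⟨w, h5, h6⟩
      · exact Or.inr ⟨q.1, by rw [h3, ← h2], h4⟩
      · obtain ⟨w'', h7, h8⟩ := htrans _ _ _ _ _ h5 h6 h3 h4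
        exact Or.inr ⟨w'', h7, h8⟩
  have := hreach L fun n => (hgood n).1
  rwa [hlast] at this


end

instance : MeasurableSpace E := ⊤
instance : DiscreteMeasurableSpace E := ⟨fun _ => trivial⟩

/-- the structures -/
abbrev Str : Type := ∀ _ : ℕ, (Fin 2 → ℕ) → Bool

open Classical in
/-- the structure on `ℕ` coded by an enumeration -/
noncomputable def pull (π : ℕ → E) : Str := fun i v => decide (rel (sy i) (π (v 0)) (π (v 1)))

lemma pull_iff (π : ℕ → E) (i : ℕ) (v : Fin 2 → ℕ) :
    pull π i v = true ↔ rel (sy i) (π (v 0)) (π (v 1)) := by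
  classical
  unfold pull
  rw [decide_eq_true_iff]

lemma measurable_pull : Measurable pull := by
  classical
  refine measurable_pi_lambda _ fun i => measurable_pi_lambda _ fun v => ?_
  have h1 : Measurable (fun π : ℕ → E => (π (v 0), π (v 1))) :=
    (measurable_pi_apply _).prodMk (measurable_pi_apply _)
  exact (Measurable.of_discrete (f := fun r : E × E => decide (rel (sy i) r.1 r.2))).comp h1

lemma rel_of_pull {π ρ : ℕ → E} (h : pull π = pull ρ) (s : Sy) (a b : ℕ) :
    rel s (π a) (π b) ↔ rel s (ρ a) (ρ b) := by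
  obtain ⟨i, rfl⟩ := sy.surjective s
  have h1 := pull_iff π i ![a, b]
  have h2 := pull_iff ρ i ![a, b]
  rw [h] at h1
  exact h1.symm.trans h2

section

variable {X : Type} [MeasurableSpace X] (Λ : X → List ℤ → Set K)

lemma measurableSet_U (hΛ : ∀ p κ, MeasurableSet {x : X | κ ∈ Λ x p}) (e : E) :
    MeasurableSet {x : X | U (Λ x) e} := by
  cases e with
  | nd p => exact MeasurableSet.const True
  | el p κ n => exact MeasurableSet.const True
  | xt p κ => exact hΛ p κ

lemma measurableSet_enum (hΛ : ∀ p κ, MeasurableSet {x : X | κ ∈ Λ x p}) :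
    MeasurableSet {q : (ℕ → E) × X | Enum (Λ q.2) q.1} := by
  have hn : ∀ (n : ℕ) (d : E), MeasurableSet {q : (ℕ → E) × X | q.1 n = d} := by
    intro n d
    have h1 : Measurable (fun q : (ℕ → E) × X => q.1 n) := (measurable_pi_apply n).comp measurable_fst
    exact h1 (MeasurableSet.of_discrete (s := {d}))
  have hne : ∀ (n m : ℕ), MeasurableSet {q : (ℕ → E) × X | q.1 n = q.1 m} := by
    intro n m
    have h1 : Measurable (fun q : (ℕ → E) × X => (q.1 n, q.1 m)) :=
      ((measurable_pi_apply n).comp measurable_fst).prodMk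
        ((measurable_pi_apply m).comp measurable_fst)
    exact h1 (MeasurableSet.of_discrete (s := {r : E × E | r.1 = r.2}))
  have hU : ∀ d, MeasurableSet {q : (ℕ → E) × X | U (Λ q.2) d} := fun d =>
    measurable_snd (measurableSet_U Λ hΛ d)
  have : {q : (ℕ → E) × X | Enum (Λ q.2) q.1} =
      (⋂ n : ℕ, ⋂ m : ℕ, ({q : (ℕ → E) × X | q.1 n = q.1 m}ᶜ ∪ {_q | n = m})) ∩
      ⋂ d : E, (((⋃ n : ℕ, {q : (ℕ → E) × X | q.1 n = d}) ∩ {q : (ℕ → E) × X | U (Λ q.2) d}) ∪
        ((⋃ n : ℕ, {q : (ℕ → E) × X | q.1 n = d})ᶜ ∩ {q : (ℕ → E) × X | U (Λ q.2) d}ᶜ)) := by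
    ext q
    simp only [mem_iInter, mem_inter_iff, mem_union, mem_compl_iff, mem_iUnion, mem_ofPred_eq]
    constructor
    · rintro ⟨h1, h2⟩
      refine ⟨fun n m => ?_, fun d => ?_⟩
      · by_cases h : q.1 n = q.1 m
        · exact Or.inr (h1 h)
        · exact Or.inl h
      · by_cases h : U (Λ q.2) d
        · exact Or.inl ⟨(h2 d).2 h, h⟩
        · exact Or.inr ⟨fun h' => h ((h2 d).1 h'), h⟩
    · rintro ⟨h1, h2⟩
      refine ⟨fun n m hnm => ?_, fun d => ?_⟩
      · rcases h1 n m with h | h
        · exact absurd hnm h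
        · exact h
      · rcases h2 d with ⟨h, h'⟩ | ⟨h, h'⟩
        · exact ⟨fun _ => h', fun _ => h⟩
        · exact ⟨fun h'' => absurd h'' h, fun h'' => absurd h'' h'⟩
  rw [this]
  refine MeasurableSet.inter ?_ ?_
  · exact MeasurableSet.iInter fun n => MeasurableSet.iInter fun m =>
      (hne n m).compl.union (MeasurableSet.const _)
  · exact MeasurableSet.iInter fun d =>
      (((MeasurableSet.iUnion fun n => hn n d).inter (hU d)).union
        ((MeasurableSet.iUnion fun n => hn n d).compl.inter (hU d).compl))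

/-- the index set of the standard enumeration -/
abbrev Ix : Type := List ℤ ⊕ ((List ℤ × K) × ℕ)

open Classical in
/-- the standard enumeration of the universe -/
noncomputable def rho (e : ℕ ≃ Ix) (L : List ℤ → Set K) (n : ℕ) : E :=
  match e n with
  | Sum.inl p => nd p
  | Sum.inr ((p, κ), 0) => if κ ∈ L p then xt p κ else el p κ 0
  | Sum.inr ((p, κ), m + 1) => if κ ∈ L p then el p κ m else el p κ (m + 1)

lemma enum_rho (e : ℕ ≃ Ix) (L : List ℤ → Set K) : Enum L (rho e L) := by
  classical
  constructor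
  · intro a b hab
    apply e.injective
    unfold rho at hab
    rcases ha : e a with p | ⟨⟨p, κ⟩, _ | m⟩ <;> rcases hb : e b with q | ⟨⟨q, κ'⟩, _ | m'⟩ <;>
      simp only [ha, hb] at hab ⊢
    all_goals first
      | (split_ifs at hab <;> simp_all; done)
      | (simp_all; done)
  · intro d
    constructor
    · rintro ⟨n, rfl⟩
      unfold rho
      rcases hn : e n with p | ⟨⟨p, κ⟩, _ | m⟩ <;> simp only
      · trivial
      · split_ifs with h
        · exact h
        · trivial
      · split_ifs with h <;> trivial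
    · intro hd
      cases d with
      | nd p => exact ⟨e.symm (Sum.inl p), by simp [rho]⟩
      | el p κ m =>
        by_cases h : κ ∈ L p
        · exact ⟨e.symm (Sum.inr ((p, κ), m + 1)), by simp [rho, h]⟩
        · rcases m with _ | m
          · exact ⟨e.symm (Sum.inr ((p, κ), 0)), by simp [rho, h]⟩
          · exact ⟨e.symm (Sum.inr ((p, κ), m + 1)), by simp [rho, h]⟩
      | xt p κ =>
        have h : κ ∈ L p := hd
        exact ⟨e.symm (Sum.inr ((p, κ), 0)), by simp [rho, h]⟩

lemma measurable_rho (hΛ : ∀ p κ, MeasurableSet {x : X | κ ∈ Λ x p}) (e : ℕ ≃ Ix) :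
    Measurable (fun x : X => rho e (Λ x)) := by
  classical
  refine measurable_pi_lambda _ fun n => ?_
  unfold rho
  rcases hn : e n with p | ⟨⟨p, κ⟩, _ | m⟩ <;> simp only
  · exact measurable_const
  · exact Measurable.ite (hΛ p κ) measurable_const measurable_const
  · exact Measurable.ite (hΛ p κ) measurable_const measurable_const

end

lemma Enum.perm {L : List ℤ → Set K} {π : ℕ → E} (h : Enum L π) (σ : Equiv.Perm ℕ) :
    Enum L (π ∘ σ) := by
  refine ⟨h.1.comp σ.injective, fun e => ?_⟩
  rw [← h.2 e]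
  constructor
  · rintro ⟨n, hn⟩
    exact ⟨σ n, hn⟩
  · rintro ⟨n, hn⟩
    exact ⟨σ.symm n, by simpa using hn⟩

/-- the first-order structure coded by a point of `Str` -/
abbrev St (u : Str) : Lg.Structure ℕ :=
  @FirstOrder.Language.Structure.mk Lg ℕ (fun f _ => PEmpty.elim f)
    (fun r xs => u (Subtype.val r) (xs ∘ Fin.cast (Subtype.property r)) = true)

/-- elementary embeddability -/
abbrev EEmb (u v : Str) : Prop :=
  Nonempty (@FirstOrder.Language.ElementaryEmbedding Lg ℕ ℕ (St u) (St v))

lemma coded_pull (π : ℕ → E) : @Coded ℕ (St (pull π)) π := by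
  intro k r xs
  change pull π r.1 (xs ∘ Fin.cast r.2) = true ↔ _
  rw [pull_iff]
  rfl

theorem eemb_iff {Λ Λ' : List ℤ → Set K} {π π' : ℕ → E} (h : Enum Λ π) (h' : Enum Λ' π') :
    (TLe Λ Λ' → EEmb (pull π) (pull π')) ∧ (EEmb (pull π) (pull π') → TLe2 Λ Λ') := by
  constructor
  · rintro ⟨g, hg, hΛ⟩
    exact @exists_elem ℕ ℕ (St (pull π)) (St (pull π')) Λ Λ' π π' (coded_pull π) (coded_pull π')
      h h' g hg hΛ
  · rintro ⟨F⟩
    exact @tle_of_elem ℕ ℕ (St (pull π)) (St (pull π')) Λ Λ' π π' (coded_pull π) (coded_pull π')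
      h h' F

/-- The main theorem: every analytic quasi-order on a nonempty Polish space is Borel equivalent to
elementary embeddability on an invariant Borel class of countable structures. -/
theorem main (X : Type) [Nonempty X] [TopologicalSpace X] [PolishSpace X] [MeasurableSpace X]
    [BorelSpace X] (R : Set (X × X)) (hR : AnalyticSet R) (hrefl : ∀ x, (x, x) ∈ R)
    (htrans : ∀ x y z, (x, y) ∈ R → (y, z) ∈ R → (x, z) ∈ R) :
    ∃ B : Set Str, MeasurableSet B ∧
      (∀ σ : Equiv.Perm ℕ, ∀ u ∈ B, (fun i v => u i (σ ∘ v)) ∈ B) ∧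
      (∃ f : X → Str, Measurable f ∧ (∀ x, f x ∈ B) ∧
        ∀ x y, (x, y) ∈ R ↔ EEmb (f x) (f y)) ∧
      (∃ g : B → X, Measurable g ∧ ∀ u v : B, EEmb u.1 v.1 ↔ (g u, g v) ∈ R) := by
  classical
  obtain ⟨x₀⟩ := ‹Nonempty X›
  -- a Borel embedding of `X` into Baire space
  obtain ⟨c₀, hc₀m, hc₀i⟩ :=
    MeasurableSpace.measurable_injection_nat_bool_of_countablySeparated X
  let c : X → N := fun x n => (c₀ x n).toNat
  have hcm : Measurable c := by
    refine measurable_pi_lambda _ fun n => ?_
    exact (Measurable.of_discrete (f := Bool.toNat)).comp ((measurable_pi_apply n).comp hc₀m)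
  have hci : Function.Injective c := by
    intro x y hxy
    apply hc₀i
    funext n
    have h := congrFun hxy n
    simp only [c] at h
    cases h1 : c₀ x n <;> cases h2 : c₀ y n <;> simp_all
  -- the relation as a continuous image
  rw [AnalyticSet] at hR
  obtain ⟨ψ, hψ, hψr⟩ : ∃ ψ : (ℕ → ℕ) → X × X, Continuous ψ ∧ range ψ = R := by
    rcases hR with hR | hR
    · have := hrefl x₀
      rw [hR] at this
      exact absurd this (notMem_empty _)
    · exact hR
  have hS : AnalyticSet (range fun w : ℕ → ℕ => (c (ψ w).1, c (ψ w).2)) := by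
    have h1 : Measurable (fun w : ℕ → ℕ => (c (ψ w).1, c (ψ w).2)) :=
      (hcm.comp (measurable_fst.comp hψ.measurable)).prodMk
        (hcm.comp (measurable_snd.comp hψ.measurable))
    have h2 := (MeasurableSet.univ (α := ℕ → ℕ)).analyticSet_image h1
    rwa [image_univ] at h2
  rw [AnalyticSet] at hS
  obtain ⟨θ, hθ, hθr⟩ : ∃ θ : N → N × N, Continuous θ ∧
      range θ = range fun w : ℕ → ℕ => (c (ψ w).1, c (ψ w).2) := by
    rcases hS with hS | hS
    · have : (c (ψ 0).1, c (ψ 0).2) ∈ (∅ : Set (N × N)) := by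
        rw [← hS]
        exact ⟨0, rfl⟩
      exact absurd this (notMem_empty _)
    · exact hS
  let α : N → N := fun w => (θ w).1
  let β : N → N := fun w => (θ w).2
  have hα : Continuous α := continuous_fst.comp hθ
  have hβ : Continuous β := continuous_snd.comp hθ
  have h1 : ∀ w, ∃ x y, (x, y) ∈ R ∧ α w = c x ∧ β w = c y := by
    intro w
    have : θ w ∈ range fun w : ℕ → ℕ => (c (ψ w).1, c (ψ w).2) := by
      rw [← hθr]
      exact ⟨w, rfl⟩
    obtain ⟨w', hw'⟩ := this
    refine ⟨(ψ w').1, (ψ w').2, ?_, ?_, ?_⟩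
    · rw [← hψr]
      exact ⟨w', rfl⟩
    · exact (congrArg Prod.fst hw').symm
    · exact (congrArg Prod.snd hw').symm
  have h2 : ∀ x y, (x, y) ∈ R → ∃ w, α w = c x ∧ β w = c y := by
    intro x y hxy
    rw [← hψr] at hxy
    obtain ⟨w', hw'⟩ := hxy
    have : (c x, c y) ∈ range θ := by
      rw [hθr]
      exact ⟨w', by simp only [hw']⟩
    obtain ⟨w, hw⟩ := this
    exact ⟨w, congrArg Prod.fst hw, congrArg Prod.snd hw⟩
  have htr : ∀ u v t w w', α w = u → β w = v → α w' = v → β w' = t →
      ∃ w'', α w'' = u ∧ β w'' = t := by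
    intro u v t w w' e1 e2 e3 e4
    obtain ⟨x, y, hxy, e5, e6⟩ := h1 w
    obtain ⟨y', z, hyz, e7, e8⟩ := h1 w'
    have : y = y' := hci (by rw [← e6, ← e7, e2, e3])
    subst this
    obtain ⟨w'', e9, e10⟩ := h2 x z (htrans x y z hxy hyz)
    exact ⟨w'', by rw [e9, ← e5, e1], by rw [e10, ← e8, e4]⟩
  let Λ : X → List ℤ → Set K := fun x => Lam α β (c x)
  have key1 : ∀ x y, (x, y) ∈ R → TLe (Λ x) (Λ y) := by
    intro x y h
    obtain ⟨w, e1, e2⟩ := h2 x y h
    exact tree_map e1 e2
  have key2 : ∀ x y, TLe2 (Λ x) (Λ y) → (x, y) ∈ R := by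
    intro x y h
    rcases rel_of_tree2 hα hβ htr h with h3 | ⟨w, e1, e2⟩
    · rw [hci h3]
      exact hrefl _
    · obtain ⟨x', y', hxy, e3, e4⟩ := h1 w
      have e5 : x = x' := hci (by rw [← e1, e3])
      have e6 : y = y' := hci (by rw [← e2, e4])
      rw [e5, e6]
      exact hxy
  have key : ∀ {x y : X} {π π' : ℕ → E}, Enum (Λ x) π → Enum (Λ y) π' →
      (EEmb (pull π) (pull π') ↔ (x, y) ∈ R) := by
    intro x y π π' h h'
    exact ⟨fun H => key2 x y ((eemb_iff h h').2 H), fun H => (eemb_iff h h').1 (key1 x y H)⟩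
  have hΛ : ∀ p κ, MeasurableSet {x : X | κ ∈ Λ x p} := fun p κ =>
    hcm (measurableSet_lam (α := α) (β := β) p κ)
  -- the class of structures
  let A : Set ((ℕ → E) × X) := {q | Enum (Λ q.2) q.1}
  have hA : MeasurableSet A := measurableSet_enum Λ hΛ
  let Φ : (ℕ → E) × X → Str := fun q => pull q.1
  have hΦ : Measurable Φ := measurable_pull.comp measurable_fst
  have hinj : InjOn Φ A := by
    rintro ⟨π, x⟩ hq ⟨π', x'⟩ hq' h
    obtain ⟨g, hg, hgπ, hgΛ⟩ := lemmaE (show Enum (Λ x) π from hq) (show Enum (Λ x') π' from hq')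
      (rel_of_pull h)
    obtain ⟨hid, hxx⟩ := rigid hg hgΛ
    have : ∀ d, mapE g d = d := by
      intro d
      cases d <;> simp only [mapE, hid]
    refine Prod.ext ?_ (hci hxx)
    funext n
    change π n = π' n
    rw [hgπ, this]
  have hAs : StandardBorelSpace A := hA.standardBorel
  let Ψ : A → Str := fun q => Φ q.1
  have hΨ : MeasurableEmbedding Ψ := by
    apply Measurable.measurableEmbedding (hΦ.comp measurable_subtype_coe)
    intro q q' h
    exact Subtype.ext (hinj q.2 q'.2 h)
  obtain ⟨G, hG, hGΨ⟩ := hΨ.exists_measurable_extend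
    (g := fun q : A => q.1.2) (measurable_snd.comp measurable_subtype_coe) (fun _ => ⟨x₀⟩)
  have hGpull : ∀ π x, Enum (Λ x) π → G (pull π) = x := by
    intro π x h
    exact congrFun hGΨ ⟨(π, x), h⟩
  obtain ⟨e⟩ : Nonempty (ℕ ≃ Ix) := by
    haveI := Classical.choice (nonempty_denumerable Ix)
    exact ⟨(Denumerable.eqv Ix).symm⟩
  refine ⟨Φ '' A, hA.image_of_measurable_injOn hΦ hinj, ?_, ?_, ?_⟩
  · rintro σ _ ⟨⟨π, x⟩, hq, rfl⟩
    exact ⟨(π ∘ σ, x), Enum.perm (show Enum (Λ x) π from hq) σ, rfl⟩
  · refine ⟨fun x => pull (rho e (Λ x)), measurable_pull.comp (measurable_rho Λ hΛ e), ?_, ?_⟩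
    · intro x
      exact ⟨(rho e (Λ x), x), enum_rho e _, rfl⟩
    · intro x y
      exact (key (enum_rho e (Λ x)) (enum_rho e (Λ y))).symm
  · refine ⟨fun u => G u.1, hG.comp measurable_subtype_coe, ?_⟩
    rintro ⟨_, ⟨⟨π, x⟩, hq, rfl⟩⟩ ⟨_, ⟨⟨π', y⟩, hq', rfl⟩⟩
    change EEmb (pull π) (pull π') ↔ (G (pull π), G (pull π')) ∈ R
    rw [hGpull π x hq, hGpull π' y hq']
    exact key hq hq'

end Pool.Agent.Helper568.EE
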